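import Mathlib

set_option autoImplicit false

/-! # Reciprocal linear spaces and their dual varieties: definitions -/

namespace Pool.Agent.U68.RL

open MvPolynomial

variable {E : Type} [Fintype E]

/-- The linear equations satisfied by the vectors of `W` (the orthogonal space of `W`). -/
def Eqn (W : Submodule ℂ (E → ℂ)) : Submodule ℂ (E → ℂ) where
  carrier := {a | ∀ w ∈ W, ∑ j, a j * w j = 0}
  add_mem' := by
    intro a b ha hb w hw
    simp only [Pi.add_apply, add_mul, Finset.sum_add_distrib, ha w hw, hb w hw, add_zero]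
  zero_mem' := by
    intro w _
    simp
  smul_mem' := by
    intro c a ha w hw
    simp only [Pi.smul_apply, smul_eq_mul, mul_assoc, ← Finset.mul_sum, ha w hw, mul_zero]

theorem mem_Eqn {W : Submodule ℂ (E → ℂ)} {a : E → ℂ} :
    a ∈ Eqn W ↔ ∀ w ∈ W, ∑ j, a j * w j = 0 := Iff.rfl

/-- The ideal of the (cone over the) reciprocal linear space `W⁻¹`: all polynomials which vanish
at the points `(1/x_j)_j`, where `x` runs through the vectors of `W` all of whose coordinates are
nonzero. -/
noncomputable def recipIdeal (W : Submodule ℂ (E → ℂ)) : Ideal (MvPolynomial E ℂ) :=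
  vanishingIdeal ℂ {y : E → ℂ | ∃ x ∈ W, (∀ j, x j ≠ 0) ∧ ∀ j, y j = (x j)⁻¹}

/-- The Zariski tangent space at `y` of the zero set of the ideal `I`: the common kernel of the
differentials at `y` of the elements of `I`. -/
def tangent (I : Ideal (MvPolynomial E ℂ)) (y : E → ℂ) : Submodule ℂ (E → ℂ) where
  carrier := {v | ∀ f ∈ I, ∑ j, eval y (pderiv j f) * v j = 0}
  add_mem' := by
    intro a b ha hb f hf
    simp only [Pi.add_apply, mul_add, Finset.sum_add_distrib, ha f hf, hb f hf, add_zero]
  zero_mem' := by
    intro f _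
    simp
  smul_mem' := by
    intro c a ha f hf
    simp only [Pi.smul_apply, smul_eq_mul, mul_left_comm _ c, ← Finset.mul_sum, ha f hf, mul_zero]

/-- The vectors `u` such that the hyperplane `∑ u_j y_j = 0` is tangent to the projective variety
of dimension `d` with ideal `I` at some smooth point: `y ≠ 0` is a zero of `I`, the tangent space
of the affine cone at `y` has dimension `d + 1`, and the hyperplane contains it. -/
def dualCone (I : Ideal (MvPolynomial E ℂ)) (d : ℕ) : Set (E → ℂ) :=
  {u | ∃ y : E → ℂ, y ≠ 0 ∧ (∀ f ∈ I, eval y f = 0) ∧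
    Module.finrank ℂ (tangent I y) = d + 1 ∧ ∀ v ∈ tangent I y, ∑ j, u j * v j = 0}

end Pool.Agent.U68.RL
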